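import Mathlib

set_option autoImplicit false

/-!
# Lecture hall simplices satisfying the gcd condition are level

If `c` satisfies the gcd condition then the lattice points in the interior of the lecture hall cone
`{x : 0 ≤ x₁/s₁ ≤ ... ≤ xₙ/sₙ}` are the points `c + y`, `y` a lattice point of this cone. Let `d₀` be
the least height of an interior lattice point of the cone over the simplex and let `(c + y, h)` be an
interior lattice point. Then `v = min (y, (h - d₀) s)` (coordinatewise) gives the lattice point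
`(v, h - d₀)` of the cone over the simplex, and `(c + y - v, d₀)` is an interior lattice point of
height `d₀`.
-/

namespace Pool.Agent.Results.MP_aff17b_co.GcdConditionLevel

/-- The `s`-lecture hall simplex `0 ≤ x₁/s₁ ≤ x₂/s₂ ≤ ... ≤ xₙ/sₙ ≤ 1`; here the number of
coordinates is `n + 1` and the coordinates are numbered from `0` to `n`. -/
def lectureHall {n : ℕ} (s : Fin (n + 1) → ℕ) : Set (Fin (n + 1) → ℝ) :=
  {x | 0 ≤ x 0 / s 0 ∧ (∀ j : Fin n, x j.castSucc / s j.castSucc ≤ x j.succ / s j.succ) ∧
    x (Fin.last n) / s (Fin.last n) ≤ 1}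

/-- The cone over `P × {1}`. -/
def cone {m : ℕ} (P : Set (Fin m → ℝ)) : Set ((Fin m → ℝ) × ℝ) :=
  {z | ∃ t : ℝ, 0 ≤ t ∧ ∃ p ∈ P, z = (t • p, t)}

/-- The lattice point with coordinates `x` and height `h`. -/
def pt {m : ℕ} (x : Fin m → ℤ) (h : ℤ) : (Fin m → ℝ) × ℝ := (fun i => (x i : ℝ), (h : ℝ))

/-- `P` is level, and the least height of an interior lattice point of the cone over `P` is `d`:
every interior lattice point of the cone is the sum of an interior lattice point of height `d` and a
lattice point of the cone. -/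
def IsLevelAt {m : ℕ} (P : Set (Fin m → ℝ)) (d : ℤ) : Prop :=
  IsLeast {h : ℤ | ∃ x : Fin m → ℤ, pt x h ∈ interior (cone P)} d ∧
    ∀ (x : Fin m → ℤ) (h : ℤ), pt x h ∈ interior (cone P) →
      ∃ (u v : Fin m → ℤ) (k : ℤ), pt u d ∈ interior (cone P) ∧ pt v k ∈ cone P ∧
        x = u + v ∧ h = d + k

/-- `P` is level. -/
def IsLevel {m : ℕ} (P : Set (Fin m → ℝ)) : Prop := ∃ d : ℤ, IsLevelAt P d

variable {n : ℕ} {s : Fin (n + 1) → ℕ}

theorem mem_cone_iff (x : Fin (n + 1) → ℝ) (h : ℝ) (hs : ∀ i, 0 < s i) :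
    (x, h) ∈ cone (lectureHall s) ↔
      0 ≤ x 0 / s 0 ∧ (∀ j : Fin n, x j.castSucc / s j.castSucc ≤ x j.succ / s j.succ) ∧
        x (Fin.last n) / s (Fin.last n) ≤ h := by
  constructor
  · rintro ⟨t, ht, p, ⟨h1, h2, h3⟩, he⟩
    obtain ⟨rfl, rfl⟩ := Prod.mk.inj he
    refine ⟨?_, fun j => ?_, ?_⟩
    · simp only [Pi.smul_apply, smul_eq_mul, mul_div_assoc]
      exact mul_nonneg ht h1
    · simp only [Pi.smul_apply, smul_eq_mul, mul_div_assoc]
      exact mul_le_mul_of_nonneg_left (h2 j) ht
    · simp only [Pi.smul_apply, smul_eq_mul, mul_div_assoc]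
      nlinarith
  · rintro ⟨h1, h2, h3⟩
    have hmono : ∀ i : Fin (n + 1), 0 ≤ x i / s i := by
      intro i
      induction i using Fin.induction with
      | zero => exact h1
      | succ j ih => exact ih.trans (h2 j)
    have hle : ∀ i : Fin (n + 1), x i / s i ≤ h := by
      intro i
      induction i using Fin.reverseInduction with
      | last => exact h3
      | cast j ih => exact (h2 j).trans ih
    have hh : 0 ≤ h := (hmono 0).trans (hle 0)
    rcases hh.eq_or_lt with h0 | h0
    · refine ⟨0, le_rfl, 0, ⟨by simp, fun j => by simp, by simp⟩, ?_⟩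
      have hx : x = 0 := by
        funext i
        have h4 : x i / s i = 0 := le_antisymm ((hle i).trans h0.symm.le) (hmono i)
        have h5 : (s i : ℝ) ≠ 0 := by
          have := hs i
          positivity
        rcases div_eq_zero_iff.1 h4 with h6 | h6
        · exact h6
        · exact absurd h6 h5
      rw [hx, ← h0]
      simp
    · refine ⟨h, hh, h⁻¹ • x, ⟨?_, fun j => ?_, ?_⟩, ?_⟩
      · simp only [Pi.smul_apply, smul_eq_mul, mul_div_assoc]
        exact mul_nonneg (inv_nonneg.2 hh) h1
      · simp only [Pi.smul_apply, smul_eq_mul, mul_div_assoc]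
        exact mul_le_mul_of_nonneg_left (h2 j) (inv_nonneg.2 hh)
      · simp only [Pi.smul_apply, smul_eq_mul, mul_div_assoc]
        rw [inv_mul_le_iff₀ h0, mul_one]
        exact h3
      · rw [smul_inv_smul₀ h0.ne']

theorem mem_interior_iff (x : Fin (n + 1) → ℝ) (h : ℝ) (hs : ∀ i, 0 < s i) :
    (x, h) ∈ interior (cone (lectureHall s)) ↔
      0 < x 0 / s 0 ∧ (∀ j : Fin n, x j.castSucc / s j.castSucc < x j.succ / s j.succ) ∧
        x (Fin.last n) / s (Fin.last n) < h := by
  have hsr : ∀ i, (0 : ℝ) < s i := fun i => by exact_mod_cast hs i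
  constructor
  · intro hx
    -- moving a little in any direction
    have key : ∀ w : (Fin (n + 1) → ℝ) × ℝ, ∃ ε : ℝ, 0 < ε ∧
        ((x, h) - ε • w) ∈ cone (lectureHall s) := by
      intro w
      have hc : Continuous (fun t : ℝ => ((x, h) - t • w : (Fin (n + 1) → ℝ) × ℝ)) := by fun_prop
      have ho : IsOpen ((fun t : ℝ => ((x, h) - t • w : (Fin (n + 1) → ℝ) × ℝ)) ⁻¹'
        interior (cone (lectureHall s))) := isOpen_interior.preimage hc
      obtain ⟨ε, hε, hb⟩ := Metric.isOpen_iff.1 ho 0 (by simpa using hx)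
      refine ⟨ε / 2, by positivity, ?_⟩
      have h1 : ε / 2 ∈ Metric.ball (0 : ℝ) ε := by
        rw [mem_ball_zero_iff, Real.norm_eq_abs, abs_of_pos (by positivity)]
        linarith
      exact interior_subset (hb h1)
    refine ⟨?_, fun j => ?_, ?_⟩
    · obtain ⟨ε, hε, h1⟩ := key (Pi.single 0 1, 0)
      have h2 := ((mem_cone_iff (x - ε • Pi.single 0 1) (h - ε • 0) hs).1 h1).1
      simp only [Pi.sub_apply, Pi.smul_apply, Pi.single_eq_same, smul_eq_mul, mul_one] at h2
      have h3 := hsr 0
      have h4 : (x 0 - ε) / s 0 < x 0 / s 0 := by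
        apply div_lt_div_of_pos_right _ h3
        linarith
      linarith
    · obtain ⟨ε, hε, h1⟩ := key (Pi.single j.succ 1, 0)
      have h2 := ((mem_cone_iff (x - ε • Pi.single j.succ 1) (h - ε • 0) hs).1 h1).2.1 j
      have hne : j.castSucc ≠ j.succ := (Fin.castSucc_lt_succ (i := j)).ne
      simp only [Pi.sub_apply, Pi.smul_apply, Pi.single_eq_same, smul_eq_mul, mul_one,
        Pi.single_eq_of_ne hne, mul_zero, sub_zero] at h2
      have h3 := hsr j.succ
      have h4 : (x j.succ - ε) / s j.succ < x j.succ / s j.succ := by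
        apply div_lt_div_of_pos_right _ h3
        linarith
      linarith
    · obtain ⟨ε, hε, h1⟩ := key (0, 1)
      have h2 := ((mem_cone_iff (x - ε • 0) (h - ε • 1) hs).1 h1).2.2
      simp only [smul_zero, sub_zero, smul_eq_mul, mul_one] at h2
      linarith
  · intro hx
    rw [mem_interior]
    refine ⟨{z | 0 < z.1 0 / s 0 ∧ (∀ j : Fin n, z.1 j.castSucc / s j.castSucc <
      z.1 j.succ / s j.succ) ∧ z.1 (Fin.last n) / s (Fin.last n) < z.2}, ?_, ?_, hx⟩
    · rintro ⟨y, k⟩ ⟨h1, h2, h3⟩
      exact (mem_cone_iff y k hs).2 ⟨h1.le, fun j => (h2 j).le, h3.le⟩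
    · have ho1 : IsOpen {z : (Fin (n + 1) → ℝ) × ℝ | 0 < z.1 0 / s 0} :=
        isOpen_lt (by fun_prop) (by fun_prop)
      have ho2 : IsOpen {z : (Fin (n + 1) → ℝ) × ℝ |
          z.1 (Fin.last n) / s (Fin.last n) < z.2} :=
        isOpen_lt (by fun_prop) (by fun_prop)
      refine ho1.inter (IsOpen.inter ?_ ho2)
      have : {z : (Fin (n + 1) → ℝ) × ℝ | ∀ j : Fin n, z.1 j.castSucc / s j.castSucc <
          z.1 j.succ / s j.succ} = ⋂ j : Fin n, {z : (Fin (n + 1) → ℝ) × ℝ |
          z.1 j.castSucc / (s j.castSucc : ℝ) < z.1 j.succ / (s j.succ : ℝ)} := by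
        ext z
        simp
      show IsOpen {z : (Fin (n + 1) → ℝ) × ℝ | ∀ j : Fin n, z.1 j.castSucc / s j.castSucc <
          z.1 j.succ / s j.succ}
      rw [this]
      exact isOpen_iInter_of_finite fun j => isOpen_lt (by fun_prop) (by fun_prop)

/-- lattice points of the cone -/
theorem pt_mem_cone (x : Fin (n + 1) → ℤ) (h : ℤ) (hs : ∀ i, 0 < s i) :
    pt x h ∈ cone (lectureHall s) ↔
      0 ≤ x 0 ∧ (∀ j : Fin n, x j.castSucc * s j.succ ≤ x j.succ * s j.castSucc) ∧
        x (Fin.last n) ≤ h * s (Fin.last n) := by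
  have hsr : ∀ i, (0 : ℝ) < s i := fun i => by exact_mod_cast hs i
  unfold pt
  rw [mem_cone_iff _ _ hs]
  refine and_congr ?_ (and_congr (forall_congr' fun j => ?_) ?_)
  · rw [le_div_iff₀ (hsr 0), zero_mul]
    exact_mod_cast Iff.rfl
  · rw [div_le_div_iff₀ (hsr _) (hsr _)]
    exact_mod_cast Iff.rfl
  · rw [div_le_iff₀ (hsr _)]
    exact_mod_cast Iff.rfl

/-- interior lattice points of the cone -/
theorem pt_mem_interior (x : Fin (n + 1) → ℤ) (h : ℤ) (hs : ∀ i, 0 < s i) :
    pt x h ∈ interior (cone (lectureHall s)) ↔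
      0 < x 0 ∧ (∀ j : Fin n, x j.castSucc * s j.succ < x j.succ * s j.castSucc) ∧
        x (Fin.last n) < h * s (Fin.last n) := by
  have hsr : ∀ i, (0 : ℝ) < s i := fun i => by exact_mod_cast hs i
  unfold pt
  rw [mem_interior_iff _ _ hs]
  refine and_congr ?_ (and_congr (forall_congr' fun j => ?_) ?_)
  · rw [lt_div_iff₀ (hsr 0), zero_mul]
    exact_mod_cast Iff.rfl
  · rw [div_lt_div_iff₀ (hsr _) (hsr _)]
    exact_mod_cast Iff.rfl
  · rw [div_lt_iff₀ (hsr _)]
    exact_mod_cast Iff.rfl

/-- **Lecture hall simplices satisfying the gcd condition are level.** Let `s₁, ..., sₙ` be positive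
integers (`n ≥ 1`) and let `c₁, ..., cₙ` be integers with `c₁ = 1` and
`cⱼ sⱼ₋₁ = cⱼ₋₁ sⱼ + gcd (sⱼ₋₁, sⱼ)` for `2 ≤ j ≤ n`. Then the `s`-lecture hall simplex is level, and
the least height of an interior lattice point of the cone over it is `⌊cₙ / sₙ⌋ + 1`. -/
theorem result {n : ℕ} (s : Fin (n + 1) → ℕ) (hs : ∀ i, 0 < s i) (c : Fin (n + 1) → ℤ)
    (hc0 : c 0 = 1)
    (hc : ∀ j : Fin n, c j.succ * s j.castSucc =
      c j.castSucc * s j.succ + (Nat.gcd (s j.castSucc) (s j.succ) : ℤ)) :
    IsLevel (lectureHall s) ∧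
      IsLevelAt (lectureHall s) (c (Fin.last n) / s (Fin.last n) + 1) := by
  suffices hmain : IsLevelAt (lectureHall s) (c (Fin.last n) / s (Fin.last n) + 1) from
    ⟨⟨_, hmain⟩, hmain⟩
  have hsz : ∀ i, (0 : ℤ) < s i := fun i => by exact_mod_cast hs i
  -- interior lattice points are `c + y`
  have hy : ∀ x : Fin (n + 1) → ℤ, 0 < x 0 →
      (∀ j : Fin n, x j.castSucc * s j.succ < x j.succ * s j.castSucc) →
      0 ≤ x 0 - c 0 ∧ ∀ j : Fin n, (x j.castSucc - c j.castSucc) * s j.succ ≤
        (x j.succ - c j.succ) * s j.castSucc := by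
    intro x h0 h1
    refine ⟨by omega, fun j => ?_⟩
    have h2 : (Nat.gcd (s j.castSucc) (s j.succ) : ℤ) ∣
        x j.succ * s j.castSucc - x j.castSucc * s j.succ := by
      apply dvd_sub
      · exact Dvd.dvd.mul_left (by exact_mod_cast Nat.gcd_dvd_left _ _) _
      · exact Dvd.dvd.mul_left (by exact_mod_cast Nat.gcd_dvd_right _ _) _
    have h3 := Int.le_of_dvd (by linarith [h1 j]) h2
    have h4 := hc j
    linarith
  have hcn : ∀ y : Fin (n + 1) → ℤ, 0 ≤ y 0 →
      (∀ j : Fin n, y j.castSucc * s j.succ ≤ y j.succ * s j.castSucc) → ∀ i, 0 ≤ y i := by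
    intro y h0 h1 i
    induction i using Fin.induction with
    | zero => exact h0
    | succ j ih =>
      have h2 := h1 j
      have h3 := hsz j.castSucc
      have h4 := hsz j.succ
      by_contra hneg
      push Not at hneg
      have h5 : y j.succ * s j.castSucc < 0 := mul_neg_of_neg_of_pos hneg h3
      have h6 : 0 ≤ y j.castSucc * s j.succ := mul_nonneg ih h4.le
      linarith
  set L := Fin.last n with hL
  set d := c L / s L + 1 with hd
  have hdlt : c L < d * s L := by
    rw [hd]
    have := Int.lt_ediv_add_one_mul_self (c L) (hsz L)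
    exact this
  have hdmin : ∀ h : ℤ, c L < h * s L → d ≤ h := by
    intro h h1
    have h2 : c L / s L < h := Int.ediv_lt_of_lt_mul (hsz L) h1
    omega
  have hcint : pt c d ∈ interior (cone (lectureHall s)) := by
    rw [pt_mem_interior _ _ hs]
    refine ⟨by omega, fun j => ?_, hdlt⟩
    have h1 := hc j
    have h2 : 0 < (Nat.gcd (s j.castSucc) (s j.succ) : ℤ) := by
      exact_mod_cast Nat.gcd_pos_of_pos_left _ (hs _)
    linarith
  refine ⟨⟨⟨c, hcint⟩, ?_⟩, ?_⟩
  · rintro h ⟨x, hx⟩
    rw [pt_mem_interior _ _ hs] at hx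
    obtain ⟨h0, h1, h2⟩ := hx
    obtain ⟨h3, h4⟩ := hy x h0 h1
    have h5 := hcn (fun i => x i - c i) h3 h4 L
    apply hdmin
    linarith
  · intro x h hx
    rw [pt_mem_interior _ _ hs] at hx
    obtain ⟨h0, h1, h2⟩ := hx
    obtain ⟨h3, h4⟩ := hy x h0 h1
    have h5 := hcn (fun i => x i - c i) h3 h4
    have hdh : d ≤ h := by
      apply hdmin
      linarith [h5 L]
    set k := h - d with hk
    have hk0 : 0 ≤ k := by omega
    refine ⟨fun i => c i + max 0 (x i - c i - k * s i), fun i => min (x i - c i) (k * s i), k,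
      ?_, ?_, ?_, by omega⟩
    · rw [pt_mem_interior _ _ hs]
      refine ⟨?_, fun j => ?_, ?_⟩
      · have := le_max_left 0 (x 0 - c 0 - k * s 0)
        omega
      · have h6 := hc j
        have h7 : 0 < (Nat.gcd (s j.castSucc) (s j.succ) : ℤ) := by
          exact_mod_cast Nat.gcd_pos_of_pos_left _ (hs _)
        have h8 := h4 j
        have h9 := hsz j.castSucc
        have h10 := hsz j.succ
        have h11 : max 0 (x j.castSucc - c j.castSucc - k * s j.castSucc) * s j.succ ≤
            max 0 (x j.succ - c j.succ - k * s j.succ) * s j.castSucc := by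
          rcases le_total (x j.castSucc - c j.castSucc - k * s j.castSucc) 0 with h12 | h12
          · rw [max_eq_left h12, zero_mul]
            exact mul_nonneg (le_max_left _ _) h9.le
          · rw [max_eq_right h12]
            refine le_trans ?_ (mul_le_mul_of_nonneg_right (le_max_right _ _) h9.le)
            nlinarith
        nlinarith
      · rcases le_total (x L - c L - k * s L) 0 with h12 | h12
        · rw [max_eq_left h12]
          linarith
        · rw [max_eq_right h12]
          have : h = d + k := by omega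
          rw [this] at h2
          nlinarith
    · rw [pt_mem_cone _ _ hs]
      refine ⟨?_, fun j => ?_, min_le_right _ _⟩
      · exact le_min h3 (mul_nonneg hk0 (hsz 0).le)
      · have h8 := h4 j
        have h9 := hsz j.castSucc
        have h10 := hsz j.succ
        rcases le_total (x j.succ - c j.succ) (k * s j.succ) with h12 | h12
        · rw [min_eq_left h12]
          refine le_trans (mul_le_mul_of_nonneg_right (min_le_left _ _) h10.le) h8
        · rw [min_eq_right h12]
          refine le_trans (mul_le_mul_of_nonneg_right (min_le_right _ _) h10.le) ?_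
          nlinarith
    · funext i
      simp only [Pi.add_apply]
      rcases le_total (x i - c i) (k * s i) with h12 | h12
      · rw [min_eq_left h12, max_eq_left (by linarith)]
        ring
      · rw [min_eq_right h12, max_eq_right (by linarith)]
        ring

end Pool.Agent.Results.MP_aff17b_co.GcdConditionLevel
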